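import Pool.Agent.H64.PhyloProof

/-!
# Minimal numbers of common partitions: trees versus caterpillars

The equality `s_{n,k} = c_{n,k}` fails: for `n = 7` and `k = 4` one has
`s_{7,4} ≤ 35 < 36 ≤ c_{7,4}`.
-/

set_option autoImplicit false

namespace Pool.Agent.Results.MP_ae7dce_co.SevenFour

open Pool.Agent.H64.Phylo

/-- There are `n` and `k` with `1 ≤ k ≤ n` such that the minimum number `s_{n,k}` of common
partitions with `k` classes over all pairs of phylogenetic trees of size `n` is smaller than the
minimum `c_{n,k}` over all pairs of caterpillars of size `n` (namely `n = 7`, `k = 4`). -/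
theorem result : ∃ n k : ℕ, 1 ≤ k ∧ k ≤ n ∧ sMin n k < cMin n k := by
  obtain ⟨h1, h2⟩ := seven_four
  exact ⟨7, 4, by norm_num, by norm_num, by omega⟩

end Pool.Agent.Results.MP_ae7dce_co.SevenFour
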